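import Pool.Agent.H24.Lam3

namespace Pool.Agent.Results.MP_cc4643_co.Six

/-- The simple graph formed by a set `S` of edges of the multigraph with end map `ends`. -/
def under {V E : Type} (ends : E → Sym2 V) (S : Set E) : SimpleGraph V :=
  SimpleGraph.fromEdgeSet (ends '' S)

/-- `T` is the edge set of a spanning tree: no two parallel edges, and a tree on all of `V`. -/
def IsSpTree {V E : Type} (ends : E → Sym2 V) (T : Set E) : Prop :=
  Set.InjOn ends T ∧ (under ends T).IsTree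

/-- At least `K + 1` vertices, and connected after deleting any fewer than `K` vertices. -/
def KConn {V E : Type} (ends : E → Sym2 V) (K : ℕ) : Prop :=
  K + 1 ≤ Nat.card V ∧
    ∀ S : Finset V, S.card < K → ((under ends Set.univ).induce ((S : Set V)ᶜ)).Connected

/-- An `(s,t)`-triple exists. -/
def HasTriple {V E : Type} (ends : E → Sym2 V) (s t : V) : Prop :=
  ∃ (o : LinearOrder V) (I O : Set E), IsSpTree ends I ∧ IsSpTree ends O ∧ Disjoint I O ∧
    (∀ v, v ≠ t → ∃ u, (under ends I).Adj v u ∧ o.lt v u) ∧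
    (∀ v, v ≠ s → ∃ u, (under ends O).Adj v u ∧ o.lt u v)

open Pool.Agent.H24.Lam

lemma lift_tree {V E : Type} [Fintype V] (ends : E → Sym2 V) (f : V → ℚ) (s : V) (p : V → V)
    (hp : ∀ v, v ≠ s → (under ends Set.univ).Adj (p v) v ∧ f (p v) < f v) :
    ∃ T : Set E, IsSpTree ends T ∧ ends '' T = (fun v => s(p v, v)) '' {v | v ≠ s} ∧
      ∀ v, v ≠ s → (under ends T).Adj v (p v) := by
  have h1 : (fun v => s(p v, v)) '' {v | v ≠ s} ⊆ ends '' Set.univ := by
    rintro _ ⟨v, hv, rfl⟩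
    exact ((SimpleGraph.fromEdgeSet_adj _).mp (hp v hv).1).1
  obtain ⟨T, -, h3, h4⟩ := Set.SurjOn.exists_subset_injOn_image_eq (f := ends) (s := Set.univ) h1
  refine ⟨T, ⟨h3, ?_⟩, h4, fun v hv => ?_⟩
  · rw [under, h4]
    exact parent_tree f s p (fun v hv => (hp v hv).2)
  · rw [under, h4, SimpleGraph.fromEdgeSet_adj]
    exact ⟨⟨v, hv, Sym2.eq_swap⟩, (hp v hv).1.ne'⟩

theorem result (V E : Type) [Fintype V] [Fintype E] (ends : E → Sym2 V)
    (_hloop : ∀ e, ¬ (ends e).IsDiag) (h : KConn ends 6) :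
    (∃ s t, s ≠ t ∧ HasTriple ends s t) ∧
      ∀ s t, (under ends Set.univ).Adj s t → HasTriple ends s t := by
  classical
  have h6 : Conn6 (under ends Set.univ) := ⟨by simpa using h.1, h.2⟩
  have key : ∀ s t, (under ends Set.univ).Adj s t → HasTriple ends s t := by
    intro s t hst
    obtain ⟨f, p, q, hf, hp, hq, hd⟩ := main h6 hst
    obtain ⟨O, o1, o2, o3⟩ := lift_tree ends f s p hp
    obtain ⟨I, i1, i2, i3⟩ := lift_tree ends (fun x => - f x) t q
      (fun v hv => ⟨(hq v hv).1, by simpa using (hq v hv).2⟩)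
    refine ⟨LinearOrder.lift' f hf, I, O, i1, o1, ?_, fun v hv => ⟨q v, i3 v hv, (hq v hv).2⟩,
      fun v hv => ⟨p v, o3 v hv, (hp v hv).2⟩⟩
    rw [Set.disjoint_left]
    intro e he1 he2
    have k1 : ends e ∈ ends '' I := ⟨e, he1, rfl⟩
    have k2 : ends e ∈ ends '' O := ⟨e, he2, rfl⟩
    rw [i2] at k1
    rw [o2] at k2
    obtain ⟨w, hw, k1⟩ := k1
    obtain ⟨v, hv, k2⟩ := k2
    exact hd v w hv hw (k2.trans k1.symm)
  refine ⟨?_, key⟩
  have h7 := h6.1
  obtain ⟨s⟩ : Nonempty V := Fintype.card_pos_iff.mp (by omega)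
  by_contra hcon
  have := big_nb h6 s ∅ (fun b hb => absurd ⟨s, b, hb.ne, key s b hb⟩ hcon)
  simp at this

end Pool.Agent.Results.MP_cc4643_co.Six
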